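import Pool.Agent.H60.RF.Stmts

/-!
# Random functionals: entropies of the lines seen (row ENT)
-/

set_option autoImplicit false

open Finset Real

namespace Pool.RF

open Pool.Agent.H49.Ent Pool.Agent.H32.Dense Pool.STK Pool.KA Pool.GP Pool.KRN

/-- (ENT) Entropies of the lines seen. -/
theorem ent : ENTStmt := by
  intro m J K F a q hq hu ha
  refine ⟨?_, fun j => Pool.KRN.H_box (J := j) hq F.dir⟩
  intro s
  induction s using Finset.induction_on with
  | empty =>
    have h0 : H q (ls F a ∅) = H q (fun _ : F.Ω => ()) := by
      refine H_congr hq.nonneg ?_ ?_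
      · intro ω ω' _ _ _
        funext i
        change (if i ∈ (∅ : Finset (Fin K)) then some (Lb F (r1 a i) ω) else none) =
          (if i ∈ (∅ : Finset (Fin K)) then some (Lb F (r1 a i) ω') else none)
        rw [if_neg (Finset.notMem_empty i), if_neg (Finset.notMem_empty i)]
      · intro ω ω' _ _ _
        rfl
    rw [h0, H_const hq.sum_one]
    simp
  | insert i s his ih =>
    have h1 := Pool.KRN.H_L1 F hu hq ha i
    have h2 := subadd hq.nonneg hq.sum_one (X := Lb F (r1 a i)) (Y := ls F a s)
      (W := ls F a (insert i s)) (by
        intro ω ω' _ _ h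
        have e1 : Lb F (r1 a i) ω = Lb F (r1 a i) ω' := (Prod.ext_iff.mp h).1
        have e2 : ls F a s ω = ls F a s ω' := (Prod.ext_iff.mp h).2
        funext k
        change (if k ∈ insert i s then some (Lb F (r1 a k) ω) else none) =
          (if k ∈ insert i s then some (Lb F (r1 a k) ω') else none)
        split_ifs with hk
        · rcases Finset.mem_insert.mp hk with h3 | h3
          · subst h3
            rw [e1]
          · have h4 : (if k ∈ s then some (Lb F (r1 a k) ω) else none) =
                (if k ∈ s then some (Lb F (r1 a k) ω') else none) := congrFun e2 k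
            rw [if_pos h3, if_pos h3] at h4
            exact h4
        · rfl)
    rw [Finset.card_insert_of_notMem his]
    push_cast
    linarith

end Pool.RF
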