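import Pool.Agent.H60.RF.Stmts

/-!
# Random functionals: what the lines seen determine (row LSA)
-/

set_option autoImplicit false

open Finset Real

namespace Pool.RF

open Pool.Agent.H49.Ent Pool.Agent.H32.Dense Pool.STK Pool.KA Pool.GP Pool.KRN

/-- (LSA) What `ls` determines. -/
theorem lsa : LSAStmt := by
  intro m J K F a s ω ω'
  have key : ∀ (s : Finset (Fin K)) (ω ω' : F.Ω),
      ls F a s ω = ls F a s ω' ↔ ∀ i ∈ s, Lb F (r1 a i) ω = Lb F (r1 a i) ω' := by
    intro s ω ω'
    constructor
    · intro h i hi
      have h1 : (if i ∈ s then some (Lb F (r1 a i) ω) else none) =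
          (if i ∈ s then some (Lb F (r1 a i) ω') else none) := congrFun h i
      rw [if_pos hi, if_pos hi] at h1
      exact Option.some_inj.mp h1
    · intro h
      funext i
      change (if i ∈ s then some (Lb F (r1 a i) ω) else none) =
          (if i ∈ s then some (Lb F (r1 a i) ω') else none)
      split_ifs with hi
      · rw [h i hi]
      · rfl
  refine ⟨key s ω ω', ?_, ?_, ?_⟩
  · intro j α hα h
    have h1 := (key s ω ω').mp h
    have h2 : ∀ l, Lb F (r1 a (α l)) ω = Lb F (r1 a (α l)) ω' := fun l => h1 (α l) (hα l)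
    refine Prod.ext ?_ ?_
    · funext l
      exact congrFun (Prod.ext_iff.mp (h2 l)).1 0
    · funext l
      exact congrFun (Prod.ext_iff.mp (h2 l)).2 0
  · intro t hst h
    exact (key s ω ω').mpr (fun i hi => (key t ω ω').mp h i (hst hi))
  · intro h
    exact (key s ω ω').mpr (fun i _ => Lb_of_l F (r1 a i) ω ω' h)

end Pool.RF
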